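import Pool.Agent.Y425.BF6.Cor

set_option autoImplicit false

/-!
Three even subgraphs of total length at least twice the number of edges in all bridgeless graphs of
cutwidth at most six.

A finite graph, loops and parallel edges allowed, has the vertex set `V` and the edge set `E`; the
ends of the edge `e` are `s e` and `t e`. The cutwidth is at most six if the vertices can be placed
on a line such that at most six edges pass over each gap. Such a bridgeless graph has six even
subgraphs which cover each edge exactly four times; then either the first three or the last three
of them are the cover.
-/

open Finset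

namespace Pool.Agent.Results.MP_5ee2e8_co.CutwidthSix

/-- the set of edges `C` is an even subgraph: all degrees are even, where a loop counts twice -/
def IsEven {V E : Type} [DecidableEq V] (s t : E → V) (C : Finset E) : Prop :=
  ∀ v, Even (∑ e ∈ C, ((if s e = v then 1 else 0) + (if t e = v then 1 else 0)))

/-- Let `G` be a finite graph such that no set of vertices is left by exactly one edge (no bridges)
and that the vertices can be numbered injectively by natural numbers such that for each `n` at most
six edges join a vertex with number smaller than `n` to a vertex with number at least `n`. Then
there are three even subgraphs which cover all edges and have together at least twice as many edges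
as `G`. -/
theorem result (V E : Type) [Fintype V] [DecidableEq V] [Fintype E] [DecidableEq E] (s t : E → V)
    (hbridge : ∀ Z : Finset V, (univ.filter fun e => ¬ (s e ∈ Z ↔ t e ∈ Z)).card ≠ 1)
    (hwidth : ∃ f : V → ℕ, Function.Injective f ∧
      ∀ n, (univ.filter fun e => ¬ (f (s e) < n ↔ f (t e) < n)).card ≤ 6) :
    ∃ C₁ C₂ C₃ : Finset E, IsEven s t C₁ ∧ IsEven s t C₂ ∧ IsEven s t C₃ ∧
      C₁ ∪ C₂ ∪ C₃ = univ ∧ 2 * Fintype.card E ≤ C₁.card + C₂.card + C₃.card :=
  Pool.Agent.Y425.BF6.Cor.two_m (Pool.Agent.Y425.BF6.Cor.six_cw s t hbridge hwidth)

end Pool.Agent.Results.MP_5ee2e8_co.CutwidthSix
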